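import Pool.Agent.V5helper57.Win.Cor

/-!
# Arrays of local data with a general clock
-/

set_option autoImplicit false

namespace Pool.Agent.V5helper57.Gen

open Finset Filter Topology Pool.Agent.Y722.HS Pool.Agent.X280.BP Pool.Agent.X280.UC Pool.Agent.X280.HG
open Pool.Agent.V5helper57.Win

variable {ι : Type} [Fintype ι] [DecidableEq ι]

/-- The sum of the squares of the bounds over the primes in `[u, v)`. -/
noncomputable def BB (b : ℕ → ℝ) (u v : ℕ) : ℝ := ∑ p ∈ (Ico u v).filter Nat.Prime, b p ^ 2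

theorem BB_nonneg (b : ℕ → ℝ) (u v : ℕ) : 0 ≤ BB b u v := Finset.sum_nonneg fun p _ => by positivity

theorem BB_mono (b : ℕ → ℝ) {u u' v v' : ℕ} (hu : u' ≤ u) (hv : v ≤ v') : BB b u v ≤ BB b u' v' := by
  unfold BB
  refine Finset.sum_le_sum_of_subset_of_nonneg ?_ fun p _ _ => by positivity
  exact Finset.filter_subset_filter _ (Finset.Ico_subset_Ico hu hv)

/-- Normalised local data: all primes are less than `x`, the large ones (greater than `X`) are negligible, `m t` is the last prime at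
the time `t`. -/
structure Arr (ι : Type) where
  x : ℕ
  X : ℕ
  H : ℕ
  Z : ∀ p : ℕ, (ι → ZMod p) → ℝ
  b : ℕ → ℝ
  m : ℝ → ℕ
  path : (ι → ℤ) → ℝ → ℝ
  bad : (ι → ℤ) → ℝ

/-- The data are admissible with the precision `k`. -/
structure Arr.Ok (D : Arr ι) (C : ℝ) (k : ℕ) : Prop where
  mono : ∀ s t, 0 ≤ s → s ≤ t → t ≤ 1 → D.m s ≤ D.m t
  top : ∀ t, 0 ≤ t → t ≤ 1 → D.m t < D.x
  b0 : ∀ p, 0 ≤ D.b p
  bd : ∀ p, p.Prime → ∀ c, |D.Z p c| ≤ D.b p
  small : ∀ p, D.b p ≤ 1 / (k + 1)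
  mean : ∀ p, p.Prime → ∀ [NeZero p], EM p (D.Z p) = 0
  var : ∀ t, 0 ≤ t → t ≤ 1 → |∑ p ∈ (Ico 0 (min D.X (D.m t) + 1)).filter Nat.Prime, vv D.Z p - t| ≤ 1 / (k + 1)
  reg : ∀ s t, 0 ≤ s → s ≤ t → t ≤ 1 → BB D.b (D.m s + 1) (D.m t + 1) ≤ C * (t - s) + 1 / (k + 1)
  tail : BB D.b (D.X + 1) D.x ≤ 1 / (k + 1)
  size : k ≤ D.X
  high : D.X ^ k ≤ D.H
  high6 : 2 ^ Fintype.card ι * D.x ^ 6 ≤ 2 * D.H + 1
  bad0 : ∀ c, 0 ≤ D.bad c
  badE : EB D.H D.bad ≤ 1 / (k + 1)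
  near : ∀ c, D.bad c < 1 → ∀ t, 0 ≤ t → t ≤ 1 → |D.path c t + SS D.Z 0 (D.m t + 1) c| ≤ 1 / (k + 1)

variable {D : Arr ι} {C : ℝ}

theorem Arr.Ok.anti {k l : ℕ} (h : D.Ok C k) (hl : l ≤ k) : D.Ok C l := by
  have h1 : (l : ℝ) ≤ k := by exact_mod_cast hl
  have h3 : 1 / ((k : ℝ) + 1) ≤ 1 / ((l : ℝ) + 1) := one_div_le_one_div_of_le (by positivity) (by linarith)
  refine ⟨h.mono, h.top, h.b0, h.bd, fun p => (h.small p).trans h3, h.mean, fun t h0 h1 => (h.var t h0 h1).trans h3,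
    fun s t hs hst ht => (h.reg s t hs hst ht).trans (by linarith), h.tail.trans h3, hl.trans h.size, ?_, h.high6, h.bad0,
    h.badE.trans h3, fun c hc t h0 h1 => (h.near c hc t h0 h1).trans h3⟩
  rcases Nat.eq_zero_or_pos k with rfl | hk0
  · have : l = 0 := by omega
    subst this
    exact h.high
  · have h4 : 1 ≤ D.X := by have := h.size; omega
    exact (Nat.pow_le_pow_right h4 hl).trans h.high

/-- **The fourth moments.** -/
theorem Arr.Ok.four {k : ℕ} (h : D.Ok C k) {u v : ℕ} (hv : v ≤ D.x) :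
    EB D.H (fun c => SS D.Z u v c ^ 4) ≤ 91 * BB D.b u v ^ 2 := by
  classical
  obtain ⟨I, hI⟩ : ∃ I : Finset ℕ, I = (Ico u v).filter Nat.Prime := ⟨_, rfl⟩
  have hmem : ∀ p ∈ I, p.Prime ∧ u ≤ p ∧ p < v := by
    intro p hp
    rw [hI, Finset.mem_filter, Finset.mem_Ico] at hp
    exact ⟨hp.2, hp.1.1, hp.1.2⟩
  obtain ⟨W, hW⟩ : ∃ W : ℝ, W = ∑ p ∈ I, D.b p ^ 2 := ⟨_, rfl⟩
  have hBW : BB D.b u v = W := by rw [hW, hI]; rfl
  have hW0 : 0 ≤ W := by rw [← hBW]; exact BB_nonneg _ _ _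
  rw [hBW]
  have hSS : ∀ c, SS D.Z u v c = ∑ p ∈ I, D.Z p (red p c) := fun c => by rw [hI]; rfl
  rcases hW0.eq_or_lt with hW1 | hW1
  · have hb : ∀ p ∈ I, D.b p = 0 := by
      intro p hp
      have h1 : D.b p ^ 2 ≤ 0 := by
        rw [hW1, hW]
        exact Finset.single_le_sum (f := fun p => D.b p ^ 2) (fun q _ => by positivity) hp
      have h2 : 0 ≤ D.b p ^ 2 := by positivity
      exact pow_eq_zero_iff (two_ne_zero) |>.1 (le_antisymm h1 h2)
    have h0 : ∀ c, SS D.Z u v c = 0 := by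
      intro c
      rw [hSS]
      refine Finset.sum_eq_zero fun p hp => ?_
      have h1 := h.bd p (hmem p hp).1 (red p c)
      rw [hb p hp] at h1
      exact abs_eq_zero.1 (le_antisymm h1 (abs_nonneg _))
    have h2 : EB D.H (fun c => SS D.Z u v c ^ 4) = 0 := by
      simp only [h0]
      simp [EB]
    rw [h2]
    positivity
  · have hx1 : 1 ≤ D.x := by
      have := h.top 0 le_rfl zero_le_one
      omega
    have hx4 : D.x ^ 4 ≤ 2 * D.H + 1 := by
      calc D.x ^ 4 ≤ D.x ^ 6 := Nat.pow_le_pow_right hx1 (by norm_num)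
        _ ≤ 2 ^ Fintype.card ι * D.x ^ 6 := Nat.le_mul_of_pos_left _ (by positivity)
        _ ≤ _ := h.high6
    have h1 := mom_four I D.x (fun p hp => ⟨(hmem p hp).1, by have := (hmem p hp).2.2; omega⟩) D.Z D.b
      (fun p hp => h.bd p (hmem p hp).1) (fun p hp => h.mean p (hmem p hp).1) W hW1 hW.symm.le D.H hx4
    have hcard : (I.card : ℝ) ≤ D.x := by
      have hc : I.card ≤ D.x := by
        calc I.card ≤ (Ico u v).card := by rw [hI]; exact Finset.card_filter_le _ _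
          _ = v - u := Nat.card_Ico u v
          _ ≤ D.x := by omega
      exact_mod_cast hc
    have h2 : (∑ p ∈ I, D.b p) ^ 2 ≤ D.x * W := by
      refine (sq_sum_le_card_mul_sum_sq (s := I) (f := D.b)).trans ?_
      rw [← hW]
      exact mul_le_mul_of_nonneg_right hcard hW0
    have h3 : (∑ p ∈ I, D.b p) ^ 4 ≤ (D.x * W) ^ 2 := by
      have : (∑ p ∈ I, D.b p) ^ 4 = ((∑ p ∈ I, D.b p) ^ 2) ^ 2 := by ring
      rw [this]
      exact pow_le_pow_left₀ (by positivity) h2 2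
    have hxR2 : (2 : ℝ) ^ Fintype.card ι * (D.x : ℝ) ^ 6 ≤ 2 * D.H + 1 := by exact_mod_cast h.high6
    have h5 : 2 ^ Fintype.card ι * ((D.x : ℝ) ^ 4 / (2 * D.H + 1)) * (∑ p ∈ I, D.b p) ^ 4 ≤ W ^ 2 := by
      calc 2 ^ Fintype.card ι * ((D.x : ℝ) ^ 4 / (2 * D.H + 1)) * (∑ p ∈ I, D.b p) ^ 4
          ≤ 2 ^ Fintype.card ι * ((D.x : ℝ) ^ 4 / (2 * D.H + 1)) * (D.x * W) ^ 2 := by gcongr
        _ = W ^ 2 * ((2 ^ Fintype.card ι * (D.x : ℝ) ^ 6) / (2 * D.H + 1)) := by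
            field_simp
        _ ≤ W ^ 2 * 1 := by
            gcongr
            rw [div_le_one (by positivity)]
            exact hxR2
        _ = W ^ 2 := mul_one _
    simp only [hSS]
    linarith

/-- **The maximal inequality.** -/
theorem Arr.Ok.maxi {k : ℕ} (h : D.Ok C k) {u v : ℕ} (huv : u ≤ v) (hv : v ≤ D.x) :
    ∃ M : (ι → ℤ) → ℝ, EB D.H M ≤ 2916 * 91 * BB D.b u v ^ 2 ∧
      ∀ c t, u ≤ t → t ≤ v → SS D.Z u t c ^ 4 ≤ M c := by
  classical
  have e1 : ∀ a b c, ∑ i ∈ Ico a b, (if i.Prime then D.Z i (red i c) else 0) = SS D.Z a b c := by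
    intro a b c
    unfold SS
    rw [Finset.sum_filter]
  have e2 : ∀ a b, ∑ i ∈ Ico a b, (if i.Prime then D.b i ^ 2 else 0) = BB D.b a b := by
    intro a b
    unfold BB
    rw [Finset.sum_filter]
  obtain ⟨M, h1, h2⟩ := chain D.H (fun i c => if i.Prime then D.Z i (red i c) else 0)
    (fun i => if i.Prime then D.b i ^ 2 else 0) (fun i => by positivity) 91
    (by positivity) v (fun a b' _ hb' => by
      simp only [e1, e2]
      exact h.four (hb'.trans hv)) (v - u) u v huv le_rfl le_rfl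
  rw [e2] at h1
  refine ⟨M, h1, fun c t hat ht => ?_⟩
  have := h2 c t hat ht
  rwa [e1] at this

end Pool.Agent.V5helper57.Gen
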