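import Pool.Agent.V5helper57.Gen.Arr

/-!
# The characteristic functions
-/

set_option autoImplicit false

namespace Pool.Agent.V5helper57.Gen

open Finset Filter Topology Pool.Agent.Y722.HS Pool.Agent.X280.BP Pool.Agent.X280.UC Pool.Agent.X280.HG
open Pool.Agent.V5helper57.Win

variable {ι : Type} [Fintype ι] [DecidableEq ι]
variable {D : Arr ι} {C : ℝ}

/-- `1 / (k + 1)` becomes small. -/
theorem ev_small {η : ℝ} (hη : 0 < η) : ∀ᶠ k : ℕ in atTop, 1 / ((k : ℝ) + 1) ≤ η :=
  tendsto_one_div_add_atTop_nhds_zero_nat.eventually (ge_mem_nhds hη)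

theorem Arr.Ok.to_dat {n : ℕ} (τ t : Fin n → ℝ) (ht0 : ∀ k, 0 ≤ t k)
    (ht1 : ∀ k, t k ≤ 1) (hv : 0 < vlim τ t) (K : ℕ) (C : ℝ) :
    ∃ k0 : ℕ, ∀ D : Arr ι, D.Ok C k0 →
      (⟨(Ico 0 (D.X + 1)).filter Nat.Prime, D.X, D.H,
        fun p c => wt τ (fun k => D.m (t k)) p * D.Z p c,
        fun c => (∑ k, τ k * D.path c (t k)) / √(vlim τ t), √(vlim τ t)⟩ : Dat2 ι).Ok K := by
  classical
  obtain ⟨V, hV⟩ : ∃ V : ℝ, V = ∑ k, |τ k| := ⟨_, rfl⟩
  obtain ⟨v, hvd⟩ : ∃ v : ℝ, v = vlim τ t := ⟨_, rfl⟩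
  obtain ⟨s, hs⟩ : ∃ s : ℝ, s = √v := ⟨_, rfl⟩
  have hv' : 0 < v := by rw [hvd]; exact hv
  have hs0 : 0 < s := by rw [hs]; exact Real.sqrt_pos.2 hv'
  have hss : s ^ 2 = v := by rw [hs]; exact Real.sq_sqrt hv'.le
  have hV0 : 0 ≤ V := by rw [hV]; positivity
  have hτV : ∀ k, |τ k| ≤ V := fun k => by
    rw [hV]
    exact Finset.single_le_sum (f := fun k => |τ k|) (fun i _ => abs_nonneg _) (Finset.mem_univ k)
  have hK : (0 : ℝ) < (K : ℝ) + 1 := by positivity
  have hn : 0 < n := by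
    rcases Nat.eq_zero_or_pos n with h | h
    · subst h
      exfalso
      have : vlim τ t = 0 := by unfold vlim; simp
      linarith
    · exact h
  have hn0 : (0 : ℝ) < n := by exact_mod_cast hn
  obtain ⟨η, hη⟩ : ∃ η : ℝ, η = 1 / ((K : ℝ) + 1) := ⟨_, rfl⟩
  have hη0 : 0 < η := by rw [hη]; positivity
  obtain ⟨lam, hlam⟩ : ∃ lam : ℝ, lam = η * s / (2 * n) := ⟨_, rfl⟩
  have hlam0 : 0 < lam := by rw [hlam]; positivity
  obtain ⟨A4, hA4⟩ : ∃ A : ℝ, A = n * ((1 / lam ^ 4) * (V ^ 4 * 91)) := ⟨_, rfl⟩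
  have hA40 : 0 ≤ A4 := by rw [hA4]; positivity
  obtain ⟨k0, hk1, hk2, hk3, hk4, hk5, hk6⟩ : ∃ k0 : ℕ, V * (1 / ((k0 : ℝ) + 1)) ≤ s / (K + 1) ∧
      V ^ 2 * (1 / ((k0 : ℝ) + 1)) ≤ v / (K + 1) ∧ V * (1 / ((k0 : ℝ) + 1)) ≤ η / 2 * s ∧
      (A4 + 1) * (1 / ((k0 : ℝ) + 1)) ≤ η ∧ K ≤ k0 ∧ 1 ≤ k0 := by
    have hE : ∀ A B : ℝ, 0 ≤ A → 0 < B → ∀ᶠ k : ℕ in atTop, A * (1 / ((k : ℝ) + 1)) ≤ B := by
      intro A B hA hB
      filter_upwards [ev_small (show 0 < B / (A + 1) by positivity)] with k hk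
      have h1 : 0 < 1 / ((k : ℝ) + 1) := by positivity
      rw [le_div_iff₀ (by positivity)] at hk
      nlinarith
    obtain ⟨k0, h⟩ := ((hE V (s / (K + 1)) hV0 (by positivity)).and ((hE (V ^ 2) (v / (K + 1)) (by positivity) (by positivity)).and
      ((hE V (η / 2 * s) hV0 (by positivity)).and ((hE (A4 + 1) η (by positivity) hη0).and
      ((eventually_ge_atTop K).and (eventually_ge_atTop 1)))))).exists
    exact ⟨k0, h.1, h.2.1, h.2.2.1, h.2.2.2.1, h.2.2.2.2.1, h.2.2.2.2.2⟩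
  refine ⟨k0, fun D h => ?_⟩
  rw [← hvd, ← hs]
  refine
    { prime := fun p hp => (Finset.mem_filter.1 hp).2
      le := fun p hp => by
        have := (Finset.mem_Ico.1 (Finset.mem_filter.1 hp).1).2
        show p ≤ D.X
        omega
      pos := hs0
      bound := fun p hp c => ?_
      mean := fun p hp _ => ?_
      var := ?_
      size := hk5.trans h.size
      high := ?_
      near := ?_ }
  · show |wt τ (fun k => D.m (t k)) p * D.Z p c| ≤ s / (K + 1)
    have hpp : p.Prime := (Finset.mem_filter.1 hp).2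
    have h1 := (h.bd p hpp c).trans (h.small p)
    have h3 := wt_abs τ (fun k => D.m (t k)) p
    rw [← hV] at h3
    rw [abs_mul]
    calc |wt τ (fun k => D.m (t k)) p| * |D.Z p c| ≤ V * (1 / (k0 + 1)) := by gcongr
      _ ≤ s / (K + 1) := hk1
  · show EM p (fun c => wt τ (fun k => D.m (t k)) p * D.Z p c) = 0
    rw [EM_mul', h.mean p (Finset.mem_filter.1 hp).2, mul_zero]
  · show |VP (fun p c => wt τ (fun k => D.m (t k)) p * D.Z p c) ((Ico 0 (D.X + 1)).filter Nat.Prime) - s ^ 2| ≤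
      s ^ 2 / (K + 1)
    rw [wt_var]
    have e1 : s ^ 2 = ∑ k, ∑ j, τ k * τ j * min (t k) (t j) := by
      rw [hss, hvd]
      rfl
    have h1 : |∑ k, ∑ j, τ k * τ j * ∑ p ∈ (Ico 0 (min D.X (min (D.m (t k)) (D.m (t j))) + 1)).filter Nat.Prime, vv D.Z p -
        ∑ k, ∑ j, τ k * τ j * min (t k) (t j)| ≤ V ^ 2 * (1 / (k0 + 1)) := by
      rw [← Finset.sum_sub_distrib]
      refine (Finset.abs_sum_le_sum_abs _ _).trans ?_
      rw [sq, hV, Finset.sum_mul, Finset.sum_mul]
      refine Finset.sum_le_sum fun k _ => ?_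
      rw [← Finset.sum_sub_distrib]
      refine (Finset.abs_sum_le_sum_abs _ _).trans ?_
      rw [Finset.mul_sum, Finset.sum_mul]
      refine Finset.sum_le_sum fun j _ => ?_
      have hmm : min (D.m (t k)) (D.m (t j)) = D.m (min (t k) (t j)) := by
        rcases le_total (t k) (t j) with h' | h'
        · rw [min_eq_left h', min_eq_left (h.mono _ _ (ht0 k) h' (ht1 j))]
        · rw [min_eq_right h', min_eq_right (h.mono _ _ (ht0 j) h' (ht1 k))]
      rw [← mul_sub, abs_mul, abs_mul, hmm]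
      refine mul_le_mul_of_nonneg_left ?_ (by positivity)
      exact h.var _ (le_min (ht0 k) (ht0 j)) ((min_le_left _ _).trans (ht1 k))
    rw [← e1] at h1
    refine h1.trans (hk2.trans (le_of_eq ?_))
    rw [hss]
  · show D.X ^ K ≤ D.H
    have h4 : 1 ≤ D.X := by have := h.size; omega
    exact (Nat.pow_le_pow_right h4 hk5).trans h.high
  · show EB D.H (far (fun c => (∑ k, τ k * D.path c (t k)) / s)
      (fun c => SP (fun p c => wt τ (fun k => D.m (t k)) p * D.Z p c) ((Ico 0 (D.X + 1)).filter Nat.Prime) c / s)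
      (1 / (K + 1))) ≤ 1 / (K + 1)
    rw [← hη]
    obtain ⟨m, hm⟩ : ∃ m : Fin n → ℕ, m = fun k => min D.X (D.m (t k)) := ⟨_, rfl⟩
    have hmk : ∀ k, min D.X (D.m (t k)) = m k := fun k => by rw [hm]
    have hm2 : ∀ k, m k + 1 ≤ D.m (t k) + 1 := fun k => by
      rw [← hmk]
      have := min_le_right D.X (D.m (t k))
      omega
    have hfar : ∀ c, far (fun c => (∑ k, τ k * D.path c (t k)) / s)
        (fun c => SP (fun p c => wt τ (fun k => D.m (t k)) p * D.Z p c) ((Ico 0 (D.X + 1)).filter Nat.Prime) c / s) η c ≤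
        D.bad c + ∑ k, (1 / lam ^ 4) * (V ^ 4 * SS D.Z (m k + 1) (D.m (t k) + 1) c ^ 4) := by
      intro c
      have hnn : 0 ≤ ∑ k, (1 / lam ^ 4) * (V ^ 4 * SS D.Z (m k + 1) (D.m (t k) + 1) c ^ 4) :=
        Finset.sum_nonneg fun k _ => by positivity
      have hf1 : far (fun c => (∑ k, τ k * D.path c (t k)) / s)
        (fun c => SP (fun p c => wt τ (fun k => D.m (t k)) p * D.Z p c) ((Ico 0 (D.X + 1)).filter Nat.Prime) c / s) η c ≤ 1 := by
        unfold far
        split_ifs <;> norm_num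
      rcases lt_or_ge (D.bad c) 1 with hbad | hbad
      · by_cases hall : ∀ k, |τ k * SS D.Z (m k + 1) (D.m (t k) + 1) c| ≤ lam
        · have h1 : |(∑ k, τ k * D.path c (t k)) / s -
              SP (fun p c => wt τ (fun k => D.m (t k)) p * D.Z p c) ((Ico 0 (D.X + 1)).filter Nat.Prime) c / s| ≤ η := by
            rw [wt_sum]
            simp only [hmk]
            have e1 : (∑ k, τ k * D.path c (t k)) / s - (-∑ k, τ k * SS D.Z 0 (m k + 1) c) / s =
                (∑ k, (τ k * (D.path c (t k) + SS D.Z 0 (D.m (t k) + 1) c) -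
                  τ k * SS D.Z (m k + 1) (D.m (t k) + 1) c)) / s := by
              rw [← sub_div, sub_neg_eq_add, ← Finset.sum_add_distrib]
              congr 1
              refine Finset.sum_congr rfl fun k _ => ?_
              have h2 := SS_add (Z := D.Z) (Nat.zero_le (m k + 1)) (hm2 k) c
              rw [h2]
              ring
            rw [e1, abs_div, abs_of_pos hs0, div_le_iff₀ hs0]
            refine (Finset.abs_sum_le_sum_abs _ _).trans ?_
            have h3 : ∀ k ∈ (Finset.univ : Finset (Fin n)),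
                |τ k * (D.path c (t k) + SS D.Z 0 (D.m (t k) + 1) c) -
                  τ k * SS D.Z (m k + 1) (D.m (t k) + 1) c| ≤ |τ k| * (1 / (k0 + 1)) + lam := by
              intro k _
              refine (abs_sub _ _).trans (add_le_add ?_ (hall k))
              rw [abs_mul]
              exact mul_le_mul_of_nonneg_left (h.near c hbad (t k) (ht0 k) (ht1 k)) (abs_nonneg _)
            refine (Finset.sum_le_sum h3).trans ?_
            rw [Finset.sum_add_distrib, ← Finset.sum_mul, ← hV, Finset.sum_const, Finset.card_univ, Fintype.card_fin,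
              nsmul_eq_mul, hlam]
            have e3 : (n : ℝ) * (η * s / (2 * n)) = η / 2 * s := by field_simp
            rw [e3]
            linarith
          have h4 : far (fun c => (∑ k, τ k * D.path c (t k)) / s)
              (fun c => SP (fun p c => wt τ (fun k => D.m (t k)) p * D.Z p c) ((Ico 0 (D.X + 1)).filter Nat.Prime) c / s) η c = 0 := by
            unfold far
            rw [if_pos h1]
          rw [h4]
          have := h.bad0 c
          positivity
        · push Not at hall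
          obtain ⟨k, hk⟩ := hall
          have h1 : (1 : ℝ) ≤ (1 / lam ^ 4) * (V ^ 4 * SS D.Z (m k + 1) (D.m (t k) + 1) c ^ 4) := by
            rw [one_div_mul_eq_div, le_div_iff₀ (by positivity), one_mul]
            have h2 : lam ^ 4 ≤ |τ k * SS D.Z (m k + 1) (D.m (t k) + 1) c| ^ 4 :=
              pow_le_pow_left₀ hlam0.le hk.le 4
            refine h2.trans ?_
            rw [abs_mul, mul_pow]
            have h3 : |τ k| ^ 4 ≤ V ^ 4 := pow_le_pow_left₀ (abs_nonneg _) (hτV k) 4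
            have h4 : |SS D.Z (m k + 1) (D.m (t k) + 1) c| ^ 4 =
                SS D.Z (m k + 1) (D.m (t k) + 1) c ^ 4 := by
              rw [pow_abs, abs_of_nonneg (by positivity)]
            rw [h4]
            exact mul_le_mul_of_nonneg_right h3 (by positivity)
          have h5 : (1 / lam ^ 4) * (V ^ 4 * SS D.Z (m k + 1) (D.m (t k) + 1) c ^ 4) ≤
              ∑ k, (1 / lam ^ 4) * (V ^ 4 * SS D.Z (m k + 1) (D.m (t k) + 1) c ^ 4) :=
            Finset.single_le_sum (f := fun k => (1 / lam ^ 4) * (V ^ 4 * SS D.Z (m k + 1) (D.m (t k) + 1) c ^ 4))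
              (fun i _ => by positivity) (Finset.mem_univ k)
          have := h.bad0 c
          linarith
      · linarith
    refine (EB_mono' D.H _ _ hfar).trans ?_
    have hfour : ∀ k ∈ (Finset.univ : Finset (Fin n)),
        EB D.H (fun c => (1 / lam ^ 4) * (V ^ 4 * SS D.Z (m k + 1) (D.m (t k) + 1) c ^ 4)) ≤
        (1 / lam ^ 4) * (V ^ 4 * (91 * (1 / (k0 + 1)))) := by
      intro k _
      rw [EB_mul', EB_mul']
      have htop := h.top _ (ht0 k) (ht1 k)
      have h1 := h.four (u := m k + 1) (v := D.m (t k) + 1) (by omega)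
      have h2 : BB D.b (m k + 1) (D.m (t k) + 1) ≤ 1 / (k0 + 1) := by
        rw [← hmk]
        rcases le_total (D.m (t k)) D.X with h' | h'
        · rw [min_eq_right h']
          unfold BB
          rw [Finset.Ico_self, Finset.filter_empty, Finset.sum_empty]
          positivity
        · rw [min_eq_left h']
          exact (BB_mono D.b le_rfl (by omega)).trans h.tail
      have h0 := BB_nonneg D.b (m k + 1) (D.m (t k) + 1)
      have h3 : (1 : ℝ) / (k0 + 1) ≤ 1 := by
        rw [div_le_one (by positivity)]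
        have : (0 : ℝ) ≤ k0 := Nat.cast_nonneg _
        linarith
      have h4 : BB D.b (m k + 1) (D.m (t k) + 1) ^ 2 ≤ 1 / (k0 + 1) := by
        rw [sq]
        calc BB D.b (m k + 1) (D.m (t k) + 1) * BB D.b (m k + 1) (D.m (t k) + 1) ≤ 1 / (k0 + 1) * 1 := by
              apply mul_le_mul h2 (h2.trans h3) h0 (by positivity)
          _ = 1 / (k0 + 1) := mul_one _
      gcongr
      exact h1.trans (by gcongr)
    have hsumE : EB D.H (fun c => D.bad c + ∑ k, (1 / lam ^ 4) * (V ^ 4 * SS D.Z (m k + 1) (D.m (t k) + 1) c ^ 4)) =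
        EB D.H D.bad + ∑ k, EB D.H (fun c => (1 / lam ^ 4) * (V ^ 4 * SS D.Z (m k + 1) (D.m (t k) + 1) c ^ 4)) := by
      rw [← EB_sum']
      unfold EB
      rw [← add_div, ← Finset.sum_add_distrib]
    rw [hsumE]
    have hs1 := Finset.sum_le_sum hfour
    rw [Finset.sum_const, Finset.card_univ, Fintype.card_fin, nsmul_eq_mul] at hs1
    have e5 : (n : ℝ) * (1 / lam ^ 4 * (V ^ 4 * (91 * (1 / (k0 + 1))))) = A4 * (1 / (k0 + 1)) := by
      rw [hA4]
      ring
    rw [e5] at hs1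
    have := h.badE
    linarith

/-- **The characteristic functions.** -/
theorem char_lim {n : ℕ} (τ t : Fin n → ℝ) (ht0 : ∀ k, 0 ≤ t k)
    (ht1 : ∀ k, t k ≤ 1) (hv : 0 < vlim τ t) (C : ℝ) {ε : ℝ} (hε : 0 < ε) :
    ∃ k0 : ℕ, ∀ D : Arr ι, D.Ok C k0 →
      ‖EBc D.H (fun c => Complex.exp (((∑ k, τ k * D.path c (t k) : ℝ) : ℂ) * Complex.I)) -
        ((Real.exp (-(vlim τ t / 2)) : ℝ) : ℂ)‖ ≤ ε := by
  obtain ⟨K, hK⟩ := unif_char2 (ι := ι) (√(vlim τ t)) hε
  obtain ⟨k0, hk0⟩ := Arr.Ok.to_dat (ι := ι) τ t ht0 ht1 hv K C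
  refine ⟨k0, fun D hD => ?_⟩
  have h := hK _ (hk0 D hD)
  have hs0 : 0 < √(vlim τ t) := Real.sqrt_pos.2 hv
  have e : ∀ c : ι → ℤ, √(vlim τ t) * ((∑ k, τ k * D.path c (t k)) / √(vlim τ t)) =
      ∑ k, τ k * D.path c (t k) := fun c => by field_simp
  simp only [e, Real.sq_sqrt hv.le] at h
  exact h

end Pool.Agent.V5helper57.Gen
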