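import Pool.Agent.V5helper57.Gen.Char

/-!
# The general invariance principle
-/

set_option autoImplicit false

namespace Pool.Agent.V5helper57.Gen

open Finset Filter Topology MeasureTheory ProbabilityTheory Pool.Agent.Y722.HS Pool.Agent.X280.BP
open Pool.Agent.V5helper57.Win
open scoped NNReal ENNReal

variable {ι : Type} [Fintype ι] [DecidableEq ι]
variable {Φ : (ℝ → ℝ) → ℝ} {Mb Kf : ℝ}
variable {Ω : Type*} [MeasurableSpace Ω] {P : Measure Ω} {W : ℝ≥0 → Ω → ℝ}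

/-- **Convergence of the finite dimensional distributions.** -/
theorem fdd (hW : IsPreBrownianReal W P) {n : ℕ} (hn : 0 < n) (g : (Fin n → ℝ) → ℝ)
    (hg : Continuous g) {Mb : ℝ} (hMb : ∀ v, |g v| ≤ Mb) (C : ℝ) {ε : ℝ} (hε : 0 < ε) :
    ∃ k0 : ℕ, ∀ D : Arr ι, D.Ok C k0 →
      |EB D.H (fun c => g (fun k => D.path c (((k : ℕ) + 1 : ℝ) / n))) - ∫ ω, g (fun k => W (gr n k) ω) ∂P| ≤ ε := by
  classical
  by_contra hcon
  push Not at hcon
  choose Ds hDs hbad using hcon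
  have hPr : IsProbabilityMeasure P := hW.isGaussianProcess.isProbabilityMeasure
  obtain ⟨v, hv⟩ : ∃ v : ℕ → (ι → ℤ) → (Fin n → ℝ), v = fun j c (k : Fin n) => (Ds j).path c (((k : ℕ) + 1 : ℝ) / n) := ⟨_, rfl⟩
  have hm0 : AEMeasurable (fun ω => (fun k => W (gr n k) ω : Fin n → ℝ)) P :=
    aemeasurable_pi_lambda _ fun k => hW.aemeasurable _
  have hmeas : AEMeasurable (fun ω => (WithLp.toLp 2 (fun k => W (gr n k) ω) : EuclideanSpace ℝ (Fin n))) P :=
    (WithLp.measurable_toLp 2 (Fin n → ℝ)).comp_aemeasurable hm0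
  obtain ⟨ν0, hν0⟩ : ∃ ν0 : Measure (EuclideanSpace ℝ (Fin n)),
    ν0 = P.map (fun ω => (WithLp.toLp 2 (fun k => W (gr n k) ω) : EuclideanSpace ℝ (Fin n))) := ⟨_, rfl⟩
  have hν0P : IsProbabilityMeasure ν0 := by rw [hν0]; exact Measure.isProbabilityMeasure_map hmeas
  obtain ⟨μ, hμ⟩ : ∃ μ : ℕ → ProbabilityMeasure (EuclideanSpace ℝ (Fin n)),
    μ = fun j => ⟨lawE (Ds j).H (v j), inferInstance⟩ := ⟨_, rfl⟩
  obtain ⟨ν, hν⟩ : ∃ ν : ProbabilityMeasure (EuclideanSpace ℝ (Fin n)), ν = ⟨ν0, hν0P⟩ := ⟨_, rfl⟩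
  have hcharν : ∀ τ : EuclideanSpace ℝ (Fin n), charFun ν0 τ =
      ((Real.exp (-(vlim (fun k => τ k) (fun k : Fin n => ((k : ℕ) + 1 : ℝ) / n) / 2)) : ℝ) : ℂ) := by
    intro τ
    have hvl : 0 ≤ vlim (fun k => τ k) (fun k => ((gr n k : ℝ≥0) : ℝ)) := by
      rw [gr_coe, vlim_sq]
      positivity
    have h1 := comb_char hW (fun k => τ k) (gr n) hvl
    rw [gr_coe] at h1
    rw [← h1, hν0, charFun_apply, integral_map hmeas (by fun_prop)]
    refine integral_congr_ae (Filter.Eventually.of_forall fun ω => ?_)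
    have e : inner ℝ (WithLp.toLp 2 (fun k => W (gr n k) ω) : EuclideanSpace ℝ (Fin n)) τ = ∑ k, τ k * W (gr n k) ω := by
      rw [PiLp.inner_apply]
      refine Finset.sum_congr rfl fun k _ => ?_
      simp
    simp only [e]
  have hconv : Tendsto μ atTop (𝓝 ν) := by
    rw [ProbabilityMeasure.tendsto_iff_tendsto_charFun]
    intro τ
    rw [hν, hμ]
    change Tendsto (fun j => charFun (lawE (Ds j).H (v j)) τ) atTop (𝓝 (charFun ν0 τ))
    rw [hcharν τ]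
    simp only [lawE_char]
    by_cases hτ : (fun k => τ k) = 0
    · rw [hτ, vlim_zero]
      have h0 : ∀ k, τ k = 0 := fun k => congrFun hτ k
      have e : ∀ j, EBc (Ds j).H (fun c => Complex.exp (((∑ k, τ k * v j c k : ℝ) : ℂ) * Complex.I)) = 1 := by
        intro j
        simp only [h0, zero_mul, Finset.sum_const_zero, Complex.ofReal_zero, Complex.exp_zero]
        exact EBc_one _
      simp only [e]
      simp
    · have hv0 := vlim_pos hn _ hτ
      rw [Metric.tendsto_atTop]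
      intro δ hδ
      obtain ⟨N, hN⟩ := char_lim (ι := ι) (fun k => τ k) (fun k : Fin n => ((k : ℕ) + 1 : ℝ) / n) (fun k => (gr_pos hn k).le)
        gr_le hv0 C (half_pos hδ)
      refine ⟨N, fun j hj => ?_⟩
      rw [dist_eq_norm, hv]
      exact lt_of_le_of_lt (hN (Ds j) ((hDs j).anti hj)) (by linarith)
  rw [ProbabilityMeasure.tendsto_iff_forall_integral_tendsto] at hconv
  have hgc : Continuous (fun z : EuclideanSpace ℝ (Fin n) => g (WithLp.ofLp z)) :=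
    hg.comp (PiLp.continuous_ofLp 2 _)
  have h := hconv (BoundedContinuousFunction.ofNormedAddCommGroup (fun z : EuclideanSpace ℝ (Fin n) => g (WithLp.ofLp z)) hgc Mb
    (fun z => by rw [Real.norm_eq_abs]; exact hMb _))
  simp only [BoundedContinuousFunction.coe_ofNormedAddCommGroup, hμ, hν] at h
  change Tendsto (fun j => ∫ z, g (WithLp.ofLp z) ∂(lawE (Ds j).H (v j))) atTop (𝓝 (∫ z, g (WithLp.ofLp z) ∂ν0)) at h
  simp only [lawE_real] at h
  rw [hν0, integral_map hmeas hgc.aestronglyMeasurable] at h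
  rw [Metric.tendsto_atTop] at h
  obtain ⟨N, hN⟩ := h ε hε
  have h6 := hN N le_rfl
  rw [Real.dist_eq, hv] at h6
  have h7 := hbad N
  linarith

/-- **Tightness.** -/
theorem tight (hΦ : Fun Φ Mb Kf) (n : ℕ) {δ : ℝ} (hδ : 0 < δ) {C : ℝ} (hC : 0 < C) :
    ∃ k0 : ℕ, ∀ D : Arr ι, D.Ok C k0 →
      |EB D.H (fun c => Φ (D.path c)) -
        EB D.H (fun c => Φ (stepf n (fun k => D.path c (((k : ℕ) + 1 : ℝ) / ((n + 1 : ℕ) : ℝ)))))| ≤
      Kf * δ + 2 * Mb * δ + 2 * Mb * (2916 * 91 * C ^ 2 * 1024) / (((n + 1 : ℕ) : ℝ) * δ ^ 4) := by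
  classical
  have hMb0 := hΦ.Mb0
  have hKf0 := hΦ.Kf0
  obtain ⟨N, hN⟩ : ∃ N : ℝ, N = ((n + 1 : ℕ) : ℝ) := ⟨_, rfl⟩
  have hN0 : 0 < N := by rw [hN]; positivity
  obtain ⟨k0, hk1, hk2, hk3⟩ := ((ev_small (show 0 < δ / 4 by positivity)).and
    ((ev_small (show 0 < C / N by positivity)).and (ev_small hδ))).exists
  refine ⟨k0, fun D h => ?_⟩
  obtain ⟨g, hg⟩ : ∃ g : ℕ → ℝ, g = fun k : ℕ => (k : ℝ) / N := ⟨_, rfl⟩
  have hg0 : ∀ k, 0 ≤ g k := fun k => by rw [hg]; positivity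
  have hgm : ∀ k, g k ≤ g (k + 1) := fun k => by
    rw [hg]
    have : (k : ℝ) ≤ ((k + 1 : ℕ) : ℝ) := by push_cast; linarith
    dsimp only
    gcongr
  have hg1 : ∀ k : Fin (n + 1), g (k + 1) ≤ 1 := fun k => by
    rw [hg]
    dsimp only
    rw [div_le_one hN0, hN]
    exact_mod_cast k.2
  have hblock : ∀ k : Fin (n + 1), ∃ Mk : (ι → ℤ) → ℝ,
      EB D.H Mk ≤ 2916 * 91 * (2 * C / N) ^ 2 ∧
      ∀ c t, D.m (g k) + 1 ≤ t → t ≤ D.m (g (k + 1)) + 1 → SS D.Z (D.m (g k) + 1) t c ^ 4 ≤ Mk c := by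
    intro k
    have hab : D.m (g k) + 1 ≤ D.m (g (k + 1)) + 1 := by
      have := h.mono _ _ (hg0 k) (hgm k) (hg1 k)
      omega
    have htop := h.top _ (hg0 (k + 1)) (hg1 k)
    obtain ⟨Mk, h1, h2⟩ := h.maxi hab (by omega)
    refine ⟨Mk, h1.trans ?_, h2⟩
    have h3 := h.reg _ _ (hg0 k) (hgm k) (hg1 k)
    have h6 : g (k + 1) - g k = 1 / N := by
      rw [hg]; dsimp only; push_cast; ring
    rw [h6] at h3
    have h7 : BB D.b (D.m (g k) + 1) (D.m (g (k + 1)) + 1) ≤ 2 * C / N := by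
      have e2 : 2 * C / N = C * (1 / N) + C / N := by ring
      rw [e2]
      linarith
    have h8 := BB_nonneg D.b (D.m (g k) + 1) (D.m (g (k + 1)) + 1)
    gcongr
  choose Mk hM1 hM2 using hblock
  have hMk0 : ∀ k c, 0 ≤ Mk k c := fun k c => by
    refine le_trans ?_ (hM2 k c (D.m (g k) + 1) le_rfl (by have := h.mono _ _ (hg0 k) (hgm k) (hg1 k); omega))
    positivity
  obtain ⟨lam, hlam⟩ : ∃ lam : ℝ, lam = δ / 4 := ⟨_, rfl⟩
  have hlam0 : 0 < lam := by rw [hlam]; positivity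
  have hosc : ∀ c, D.bad c < 1 → (∀ k, Mk k c ≤ lam ^ 4) → ∀ t, 0 ≤ t → t ≤ 1 →
      |D.path c t - stepf n (fun k => D.path c (((k : ℕ) + 1 : ℝ) / ((n + 1 : ℕ) : ℝ))) t| ≤ δ := by
    intro c hb hc t ht0 ht1
    obtain ⟨h1, h2⟩ := ix_spec n ht0 ht1
    obtain ⟨k, hk⟩ : ∃ k, k = ix n t := ⟨_, rfl⟩
    rw [← hk, ← hN] at h1 h2
    have h1' : g k ≤ t := by rw [hg]; exact h1
    have h2' : t ≤ g (k + 1) := by rw [hg]; push_cast; exact h2
    have e0 : stepf n (fun k => D.path c (((k : ℕ) + 1 : ℝ) / ((n + 1 : ℕ) : ℝ))) t = D.path c (g (k + 1)) := by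
      unfold stepf
      rw [← hk, hg, hN]
      push_cast
      rfl
    rw [e0]
    have ha1 : D.m (g k) + 1 ≤ D.m t + 1 := by have := h.mono _ _ (hg0 k) h1' ht1; omega
    have ha2 : D.m t + 1 ≤ D.m (g (k + 1)) + 1 := by have := h.mono _ _ ht0 h2' (hg1 k); omega
    have h3 := h.near c hb t ht0 ht1
    have h4 := h.near c hb (g (k + 1)) (hg0 _) (hg1 k)
    have h5 : ∀ s, D.m (g k) + 1 ≤ s → s ≤ D.m (g (k + 1)) + 1 → |SS D.Z (D.m (g k) + 1) s c| ≤ lam := by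
      intro s hs1 hs2
      have h6 := (hM2 k c s hs1 hs2).trans (hc k)
      have h7 : |SS D.Z (D.m (g k) + 1) s c| ^ 4 ≤ lam ^ 4 := by
        rw [pow_abs, abs_of_nonneg (by positivity)]
        exact h6
      exact le_of_pow_le_pow_left₀ (by norm_num) hlam0.le h7
    have h8 := h5 _ ha1 ha2
    have h9 := h5 _ (ha1.trans ha2) le_rfl
    have e3 := SS_add (Z := D.Z) (Nat.zero_le _) ha1 c
    have h1b : D.m (g k) + 1 ≤ D.m (g (k + 1)) + 1 := ha1.trans ha2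
    have e2 := SS_add (Z := D.Z) (Nat.zero_le _) h1b c
    rw [e3] at h3
    rw [e2] at h4
    rw [abs_le] at h3 h4 h8 h9 ⊢
    rw [hlam] at h8 h9
    constructor <;> linarith [h3.1, h3.2, h4.1, h4.2, h8.1, h8.2, h9.1, h9.2]
  rw [← EB_sub']
  refine (EB_abs' D.H _).trans ?_
  have hmaj : ∀ c, |Φ (D.path c) - Φ (stepf n (fun k => D.path c (((k : ℕ) + 1 : ℝ) / ((n + 1 : ℕ) : ℝ))))| ≤
      2 * Mb * D.bad c + ∑ k : Fin (n + 1), (Kf * δ / N + 2 * Mb / lam ^ 4 * Mk k c) := by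
    intro c
    have e : ∑ k : Fin (n + 1), (Kf * δ / N + 2 * Mb / lam ^ 4 * Mk k c) = Kf * δ + ∑ k, 2 * Mb / lam ^ 4 * Mk k c := by
      rw [Finset.sum_add_distrib, Finset.sum_const, Finset.card_univ, Fintype.card_fin, nsmul_eq_mul, ← hN]
      congr 1
      field_simp
    rw [e]
    have h0 : 0 ≤ ∑ k, 2 * Mb / lam ^ 4 * Mk k c := Finset.sum_nonneg fun k _ => by
      have := hMk0 k c
      positivity
    have hb0 := h.bad0 c
    have h3 := hΦ.diff (D.path c) (stepf n (fun k => D.path c (((k : ℕ) + 1 : ℝ) / ((n + 1 : ℕ) : ℝ))))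
    have h4 : 0 ≤ Kf * δ := by positivity
    rcases lt_or_ge (D.bad c) 1 with hb | hb
    · by_cases hc : ∀ k, Mk k c ≤ lam ^ 4
      · have h1 := hΦ.lip (D.path c) (stepf n (fun k => D.path c (((k : ℕ) + 1 : ℝ) / ((n + 1 : ℕ) : ℝ)))) δ hδ.le
          (fun t ht0 ht1 => hosc c hb hc t ht0 ht1)
        have : 0 ≤ 2 * Mb * D.bad c := by positivity
        linarith
      · push Not at hc
        obtain ⟨k, hk⟩ := hc
        have h1 : 2 * Mb ≤ 2 * Mb / lam ^ 4 * Mk k c := by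
          rw [div_mul_eq_mul_div, le_div_iff₀ (by positivity)]
          exact mul_le_mul_of_nonneg_left hk.le (by positivity)
        have h2 : 2 * Mb / lam ^ 4 * Mk k c ≤ ∑ k, 2 * Mb / lam ^ 4 * Mk k c :=
          Finset.single_le_sum (f := fun k => 2 * Mb / lam ^ 4 * Mk k c) (fun i _ => by
            have := hMk0 i c
            positivity) (Finset.mem_univ k)
        have : 0 ≤ 2 * Mb * D.bad c := by positivity
        linarith
    · have : 2 * Mb ≤ 2 * Mb * D.bad c := le_mul_of_one_le_right (by positivity) hb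
      linarith
  refine (EB_mono' D.H _ _ hmaj).trans ?_
  have hsplit : EB D.H (fun c => 2 * Mb * D.bad c + ∑ k : Fin (n + 1), (Kf * δ / N + 2 * Mb / lam ^ 4 * Mk k c)) =
      2 * Mb * EB D.H D.bad + ∑ k : Fin (n + 1), EB D.H (fun c => Kf * δ / N + 2 * Mb / lam ^ 4 * Mk k c) := by
    rw [← EB_sum', ← EB_mul']
    unfold EB
    rw [← add_div, ← Finset.sum_add_distrib]
  rw [hsplit]
  have hone : ∀ k ∈ (Finset.univ : Finset (Fin (n + 1))), EB D.H (fun c => Kf * δ / N + 2 * Mb / lam ^ 4 * Mk k c) ≤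
      Kf * δ / N + 2 * Mb / lam ^ 4 * (2916 * 91 * (2 * C / N) ^ 2) := by
    intro k _
    have e : EB D.H (fun c => Kf * δ / N + 2 * Mb / lam ^ 4 * Mk k c) = Kf * δ / N + 2 * Mb / lam ^ 4 * EB D.H (Mk k) := by
      have e1 : (fun c => Kf * δ / N + 2 * Mb / lam ^ 4 * Mk k c) = fun c => (fun _ => Kf * δ / N) c - (fun c => (-(2 * Mb / lam ^ 4)) * Mk k c) c := by
        funext c; ring
      rw [e1, EB_sub', EB_mul', EB_const]
      ring
    rw [e]
    have h1 := hM1 k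
    gcongr
  have hs := Finset.sum_le_sum hone
  rw [Finset.sum_const, Finset.card_univ, Fintype.card_fin, nsmul_eq_mul, ← hN] at hs
  have e9 : N * (Kf * δ / N + 2 * Mb / lam ^ 4 * (2916 * 91 * (2 * C / N) ^ 2)) =
      Kf * δ + 2 * Mb * (2916 * 91 * C ^ 2 * 1024) / (N * δ ^ 4) := by
    rw [hlam]
    field_simp
    ring
  rw [e9] at hs
  have hb1 : 2 * Mb * EB D.H D.bad ≤ 2 * Mb * δ := by
    have := h.badE.trans hk3
    gcongr
  rw [← hN]
  linarith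

/-- **The invariance principle.** -/
theorem donsker (hW : IsBrownianReal W P) (hΦ : Fun Φ Mb Kf) {C : ℝ} (hC : 0 < C) {ε : ℝ} (hε : 0 < ε) :
    ∃ k0 : ℕ, ∀ D : Arr ι, D.Ok C k0 →
      |EB D.H (fun c => Φ (D.path c)) - ∫ ω, Φ (fun t : ℝ => W t.toNNReal ω) ∂P| ≤ ε := by
  have hK := hΦ.Kf0
  have hMb := hΦ.Mb0
  obtain ⟨δ, hδd⟩ : ∃ δ : ℝ, δ = ε / (4 * (Kf + 2 * Mb + 1)) := ⟨_, rfl⟩
  have hδ : 0 < δ := by rw [hδd]; positivity
  have hKδ : Kf * δ + 2 * Mb * δ ≤ ε / 4 := by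
    have : (Kf + 2 * Mb + 1) * δ = ε / 4 := by rw [hδd]; field_simp
    nlinarith
  have hlim1 : Tendsto (fun n : ℕ => 2 * Mb * (2916 * 91 * C ^ 2 * 1024) / (((n + 1 : ℕ) : ℝ) * δ ^ 4)) atTop (𝓝 0) := by
    have h1 : Tendsto (fun n : ℕ => ((n + 1 : ℕ) : ℝ) * δ ^ 4) atTop atTop :=
      (tendsto_natCast_atTop_atTop.comp (tendsto_add_atTop_nat 1)).atTop_mul_const (by positivity)
    exact tendsto_const_nhds.div_atTop h1
  have hlim2 := brown_step hW hΦ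
  rw [Metric.tendsto_atTop] at hlim2
  obtain ⟨N2, hN2⟩ := hlim2 (ε / 4) (by positivity)
  obtain ⟨n, hn1, hn2⟩ := ((hlim1.eventually (ge_mem_nhds (show (0 : ℝ) < ε / 4 by positivity))).and
    (eventually_ge_atTop N2)).exists
  have h3 := hN2 n hn2
  rw [Real.dist_eq] at h3
  obtain ⟨k1, hk1⟩ := fdd (ι := ι) hW.toIsPreBrownianReal (n := n + 1) (Nat.succ_pos n) (fun v => Φ (stepf n v)) (hΦ.step_cont n)
    (fun v => hΦ.bd _) C (ε := ε / 4) (by positivity)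
  obtain ⟨k2, hk2⟩ := tight (ι := ι) hΦ n hδ hC
  refine ⟨max k1 k2, fun D hD => ?_⟩
  have h5 := hk2 D (hD.anti (le_max_right _ _))
  have h6 := hk1 D (hD.anti (le_max_left _ _))
  rw [abs_le] at h5 h6 ⊢
  rw [abs_lt] at h3
  constructor <;> linarith [h3.1, h3.2, h5.1, h5.2, h6.1, h6.2]

end Pool.Agent.V5helper57.Gen
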